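import Pool.Agent.Y645.UG.Stm
import Pool.Agent.Y388.UL.Spc

/-!
# Increments of the rank under specialization (UG-INC)
-/

set_option autoImplicit false

namespace Pool.Agent.Y508.UG

open MvPolynomial Module Pool.Agent.Y645.UL

theorem t_INCg : Pool.Agent.Y645.UG.S_INCg := by
  intro k L L' ι κ _ _ _ _ _ _ _ w x b hS
  have h : Lam (Sum.elim w (fun i => Units.map (algebraMap k L).toMonoidHom (b i))) ≤
      Lam (Sum.elim x (fun i => Units.map (algebraMap k L').toMonoidHom (b i))) := by
    refine Pool.Agent.Y388.UL.t_SPC k L L' ι (ι ⊕ κ)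
      (Sum.elim X (fun i => C ((b i : kˣ) : k))) w x _ _ hS ?_ ?_
    · rintro (i | i)
      · simp
      · simp
    · rintro (i | i)
      · simp
      · simp
  exact mrk_drop h Sum.inl (fun j => rfl) (fun j => rfl)

end Pool.Agent.Y508.UG
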